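import Pool.Agent.Lib.MP_346d6a_co.AH44Stepanov
import Pool.Agent.Lib.MP_346d6a_co.B3
import Pool.Agent.Lib.MP_346d6a_co.T98Top
import Pool.Agent.Lib.MP_346d6a_co.DBlocks
import Pool.Agent.Lib.MP_346d6a_co.G34
import Pool.Agent.Lib.MP_346d6a_co.KCase
import Pool.Agent.Lib.MP_346d6a_co.M47Main
import Pool.Agent.Lib.MP_346d6a_co.TMain
import Pool.Agent.Lib.MP_346d6a_co.TCore
import Pool.Agent.Lib.MP_346d6a_co.TComb
import Pool.Agent.Lib.MP_346d6a_co.TTrans
import Pool.Agent.Lib.MP_346d6a_co.TBlock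
import Pool.Agent.Lib.MP_346d6a_co.TIndep
import Pool.Agent.Lib.MP_346d6a_co.TFirst
import Pool.Agent.Lib.MP_346d6a_co.TStruct
import Pool.Agent.Lib.MP_346d6a_co.TRoots
import Pool.Agent.Lib.MP_346d6a_co.TSym
import Pool.Agent.Lib.MP_346d6a_co.TCoc
import Pool.Agent.Lib.MP_346d6a_co.TOdd
import Pool.Agent.Lib.MP_346d6a_co.TDesc
import Pool.Agent.Lib.MP_346d6a_co.TSurf
import Pool.Agent.Lib.MP_346d6a_co.TRad
import Pool.Agent.Lib.MP_346d6a_co.TFin
import Pool.Agent.Lib.MP_346d6a_co.WMain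
import Pool.Agent.Lib.MP_346d6a_co.W28Main
import Pool.Agent.Lib.MP_346d6a_co.W48Main
import Pool.Agent.Lib.MP_346d6a_co.W27Main
import Pool.Agent.Lib.MP_346d6a_co.X42Str
import Pool.Agent.Lib.MP_346d6a_co.X42Fin

/-!
The classification of the exceptional APN polynomials; it contains the Aubry-McGuire-Rodier
conjecture.
-/

namespace Pool.Agent.Results.MP_346d6a_co.Classification

open Polynomial Pool.Agent.Lib.MP_346d6a_co

theorem result (F : Type) [Field F] [Fintype F] [CharP F 2] (n : ℕ) (hn : Fintype.card F = 2 ^ n)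
    (f : F[X]) :
    List.TFAE [ExcAPN f,
      ∃ (j t : ℕ) (L₁ L₂ A : F[X]), GKW j t ∧ j.Coprime n ∧
        AffPoly L₁ ∧ AffPoly L₂ ∧ AffPoly A ∧ (Function.Bijective fun x : F => L₁.eval x) ∧
        (Function.Bijective fun x : F => L₂.eval x) ∧ f = L₁.comp (L₂ ^ t) + A,
      ∃ j t : ℕ, GKW j t ∧ j.Coprime n ∧
        {m : ℕ | 1 ≤ m ∧ j.Coprime m ∧ ∃ (E : Type) (_ : Field E) (_ : Algebra F E),
          Module.finrank F E = m ∧ CCZ (fun x : E => aeval x f) (fun x => x ^ t)}.Infinite ∧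
        ∀ (E : Type) [Field E] [Finite E] [Algebra F E], IsAPN (fun x : E => aeval x f) →
          CCZ (fun x : E => aeval x f) (fun x => x ^ t)] := by
  have hcard : ∀ (E : Type) [Field E] [Algebra F E] {m : ℕ}, 1 ≤ m → Module.finrank F E = m →
      Finite E ∧ CharP E 2 ∧ Nat.card E = 2 ^ (n * m) := fun E _ _ m hm hE => by
    have : Module.Finite F E := Module.finite_of_finrank_pos (by omega)
    refine ⟨Module.finite_of_finite F, charP_of_injective_algebraMap (algebraMap F E).injective 2,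
      ?_⟩
    rw [Module.natCard_eq_pow_finrank (K := F), hE, Nat.card_eq_fintype_card, hn, pow_mul]
  have hpos : ∀ {j t : ℕ}, GKW j t → 1 ≤ t := fun h => by
    rcases h.2 with rfl | rfl <;> exact Nat.le_add_left 1 _
  tfae_have 1 → 2 := fun hf => by
    have hC := T98.topReduction existsVal rootLemma
    have hM := M47.bigFactor existsVal
    have hCo := cohLemma transfer
    have hI := indepTame indep
    obtain ⟨ν, e, he, he1, hν, hT⟩ := lowest_level (existsPAC stepanov) hC hM (surfPAC descent)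
      wildDO nonDO wildK F f hf
    obtain ⟨t, L₁, L₂, A, ht, h₁, h₂, hA, key⟩ := X42.main_form (existsPAC stepanov) hC blocks
      goldCase kasamiCase hM (coreThm (firstBlock (blockPoly transfer hCo moduleLemma) hI) gStruct
        (lcUnit hCo halfLemma) (rootsG hCo moduleLemma hI) sym4 cocycle
        (oddDeg hCo halfLemma indep))
      (surfPAC descent) radRed apnComp homog F f hf he he1 hν hT
    obtain ⟨j, hj⟩ : ∃ j, GKW j t := by
      rcases ht with ⟨j, g1, g2⟩ | ⟨j, g1, g2⟩
      · exact ⟨j, g1, Or.inl g2⟩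
      · exact ⟨j, g1, Or.inr g2⟩
    obtain ⟨m, ⟨hm, E, _, _, hE, ha⟩, hm'⟩ := hf.exists_gt (t + 1)
    obtain ⟨_, _, hc⟩ := hcard E hm hE
    have hn0 : n ≠ 0 := fun h => by
      have := Fintype.one_lt_card (α := F)
      rw [hn, h] at this
      omega
    have hlt : t + 1 < Nat.card E := by
      rw [hc]
      exact (hm'.trans_le (Nat.le_mul_of_pos_left m (Nat.pos_of_ne_zero hn0))).trans
        Nat.lt_two_pow_self
    have hG := X42.form_eval h₁ h₂ hA key E
    have hco := X42.coprime_of_apn hc hj ((X42.ccz_apn (X42.ccz_all hG ha (hpos hj))).1 ha)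
    exact ⟨j, t, L₁, L₂, A, hj, hco.coprime_mul_right_right, h₁, h₂, hA,
      X42.bij_of_inj h₁ E (X42.inj_one hG ha (hpos hj) hlt),
      X42.bij_of_inj h₂ E (X42.inj_two hG ha (by have := hpos hj; omega)), key⟩
  tfae_have 2 → 3 := by
    rintro ⟨j, t, L₁, L₂, A, hj, hco, h₁, h₂, hA, b₁, b₂, key⟩
    refine ⟨j, t, hj, hco, (Nat.infinite_setOfPred_prime.sdiff
      (Set.finite_le_nat (j + L₁.natDegree + L₂.natDegree))).mono ?_, fun E _ _ _ ha => ?_⟩
    · rintro m ⟨hp, hm⟩
      have hp : m.Prime := hp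
      have hm : j + L₁.natDegree + L₂.natDegree < m := not_le.1 hm
      have : NeZero m := ⟨hp.ne_zero⟩
      have hE := FiniteField.finrank_extension F 2 m
      obtain ⟨_, _, -⟩ := hcard _ hp.pos hE
      refine ⟨hp.pos, (Nat.coprime_of_lt_prime (by have := hj.1; omega) (by omega) hp).symm,
        FiniteField.Extension F 2 m, inferInstance, inferInstance, hE, ?_⟩
      exact TFin.ccz_of_equiv
        (AddEquiv.ofBijective (Aff.hom h₂ _) (Finite.injective_iff_bijective.1
          (X42.inj_of_prime h₂ b₂.1 _ (hE.symm ▸ hp) (by omega))))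
        (AddEquiv.ofBijective (Aff.hom h₁ _) (Finite.injective_iff_bijective.1
          (X42.inj_of_prime h₁ b₁.1 _ (hE.symm ▸ hp) (by omega))))
        _ _ _ (X42.form_eval h₁ h₂ hA key _)
    · have : CharP E 2 := charP_of_injective_algebraMap (algebraMap F E).injective 2
      exact X42.ccz_all (X42.form_eval h₁ h₂ hA key E) ha (hpos hj)
  tfae_have 3 → 1 := by
    rintro ⟨j, t, hj, hco, hinf, -⟩
    refine hinf.mono ?_
    rintro m ⟨hm, hjm, E, _, _, hE, h⟩
    obtain ⟨_, _, hc⟩ := hcard E hm hE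
    exact ⟨hm, E, inferInstance, inferInstance, hE,
      (X42.ccz_apn h).2 (X42.apn_of_coprime hc hj (hco.mul_right hjm))⟩
  tfae_finish

end Pool.Agent.Results.MP_346d6a_co.Classification
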